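import Pool.Agent.Helper26.LU.Goals
import Pool.Agent.Helper26.LU.Base2

/-!
Packet LU-FD: a polynomial on the rotation group is controlled by its moments.
-/

namespace Pool.Agent.Helper79.LU

open MeasureTheory Matrix Real Pool.Agent.Helper26.LU

/-- The index type of the monomials. -/
abbrev Mi (N : ℕ) := Σ n : Fin (N + 1), (Fin (n : ℕ) → Fin 3) × (Fin (n : ℕ) → Fin 3)

/-- The monomials as continuous functions. -/
noncomputable def mo {N : ℕ} (κ : Mi N) : C(↥SO3, ℝ) where
  toFun := fun R => ∏ i, (R.1 : M3) (κ.2.1 i) (κ.2.2 i)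
  continuous_toFun := by
    refine continuous_finsetProd _ fun i _ => ?_
    exact continuous_subtype_val.matrix_elem _ _

/-- Their span. -/
noncomputable def VN (N : ℕ) : Submodule ℝ C(↥SO3, ℝ) :=
  Submodule.span ℝ (Set.range (mo (N := N)))

instance (N : ℕ) : FiniteDimensional ℝ (VN N) :=
  FiniteDimensional.span_of_finite ℝ (Set.finite_range _)

/-- A polynomial as a continuous function. -/
noncomputable def evF (P : MvPolynomial (Fin 3 × Fin 3) ℝ) : C(↥SO3, ℝ) where
  toFun := fun R => evM P R.1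
  continuous_toFun := by
    unfold evM
    refine (MvPolynomial.continuous_eval P).comp ?_
    exact continuous_pi fun p => continuous_subtype_val.matrix_elem _ _

lemma exists_mo {N : ℕ} (s : (Fin 3 × Fin 3) →₀ ℕ) (hs : (s.sum fun _ e => e) ≤ N) :
    ∃ κ : Mi N, ∀ R : ↥SO3, mo κ R = ∏ i, (R.1 : M3) i.1 i.2 ^ s i := by
  classical
  set l := (Finsupp.toMultiset s).toList with hl
  have hlen : l.length = s.sum fun _ e => e := by
    rw [hl, Multiset.length_toList, Finsupp.card_toMultiset]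
    rfl
  refine ⟨⟨⟨l.length, by omega⟩, fun i => (l[(i : ℕ)]'i.2).1, fun i => (l[(i : ℕ)]'i.2).2⟩,
    fun R => ?_⟩
  have h1 : (∏ i : Fin l.length, (R.1 : M3) (l[(i : ℕ)]).1 (l[(i : ℕ)]).2) =
      (l.map fun x : Fin 3 × Fin 3 => (R.1 : M3) x.1 x.2).prod :=
    Fin.prod_univ_fun_getElem l fun x : Fin 3 × Fin 3 => (R.1 : M3) x.1 x.2
  have h2 : (l.map fun x : Fin 3 × Fin 3 => (R.1 : M3) x.1 x.2).prod =
      ((Finsupp.toMultiset s).map fun x : Fin 3 × Fin 3 => (R.1 : M3) x.1 x.2).prod := by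
    rw [← Multiset.prod_coe, ← Multiset.map_coe, hl, Multiset.coe_toList]
  have h3 : ((Finsupp.toMultiset s).map fun x : Fin 3 × Fin 3 => (R.1 : M3) x.1 x.2).prod =
      ∏ i, (R.1 : M3) i.1 i.2 ^ s i := by
    rw [Finset.prod_multiset_map_count, Finsupp.toFinset_toMultiset]
    have h4 : ∀ i : Fin 3 × Fin 3, (Finsupp.toMultiset s).count i = s i :=
      fun i => Finsupp.count_toMultiset s i
    rw [Finset.prod_congr rfl fun i _ => by rw [h4 i]]
    refine Finset.prod_subset (Finset.subset_univ _) fun i _ hi => ?_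
    rw [Finsupp.notMem_support_iff.mp hi, pow_zero]
  exact h1.trans (h2.trans h3)

lemma evF_mem {N : ℕ} (P : MvPolynomial (Fin 3 × Fin 3) ℝ) (hP : P.totalDegree ≤ N) :
    evF P ∈ VN N := by
  classical
  have h : ∀ s : (Fin 3 × Fin 3) →₀ ℕ, ∃ g : C(↥SO3, ℝ), (s ∈ P.support → g ∈ VN N) ∧
      (s ∈ P.support → ∀ R : ↥SO3, g R = ∏ i, (R.1 : M3) i.1 i.2 ^ s i) := by
    intro s
    by_cases hs : s ∈ P.support
    · obtain ⟨κ, hκ⟩ := exists_mo s ((MvPolynomial.le_totalDegree hs).trans hP)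
      exact ⟨mo κ, fun _ => Submodule.subset_span ⟨κ, rfl⟩, fun _ => hκ⟩
    · exact ⟨0, fun h => absurd h hs, fun h => absurd h hs⟩
  choose g hg1 hg2 using h
  have hev : evF P = ∑ s ∈ P.support, MvPolynomial.coeff s P • g s := by
    ext R
    rw [ContinuousMap.sum_apply]
    show MvPolynomial.eval (fun p : Fin 3 × Fin 3 => (R.1 : M3) p.1 p.2) P = _
    rw [MvPolynomial.eval_eq']
    refine Finset.sum_congr rfl fun s hs => ?_
    rw [ContinuousMap.smul_apply, smul_eq_mul, hg2 s hs R]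
  rw [hev]
  exact Submodule.sum_mem _ fun s hs => Submodule.smul_mem _ _ (hg1 s hs)

lemma integrable_cont (μ : Measure ↥SO3) [IsProbabilityMeasure μ] (f : C(↥SO3, ℝ)) :
    Integrable (fun R => f R) μ :=
  f.continuous.integrable_of_hasCompactSupport (HasCompactSupport.of_compactSpace _)

/-- The moments. -/
noncomputable def Lam (μ : Measure ↥SO3) [IsProbabilityMeasure μ] (N : ℕ) :
    VN N →ₗ[ℝ] (Mi N → ℝ) where
  toFun f κ := ∫ R, mo κ R * f.1 R ∂μ
  map_add' f g := by
    funext κ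
    show ∫ R, mo κ R * (f.1 + g.1) R ∂μ = ∫ R, mo κ R * f.1 R ∂μ + ∫ R, mo κ R * g.1 R ∂μ
    have i1 : Integrable (fun R => mo κ R * f.1 R) μ := integrable_cont μ (mo κ * f.1)
    have i2 : Integrable (fun R => mo κ R * g.1 R) μ := integrable_cont μ (mo κ * g.1)
    rw [← integral_add i1 i2]
    refine integral_congr_ae (Filter.Eventually.of_forall fun R => ?_)
    show mo κ R * (f.1 R + g.1 R) = mo κ R * f.1 R + mo κ R * g.1 R
    ring
  map_smul' c f := by
    funext κ
    show ∫ R, mo κ R * (c • f.1) R ∂μ = c * ∫ R, mo κ R * f.1 R ∂μ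
    rw [← integral_const_mul]
    refine integral_congr_ae (Filter.Eventually.of_forall fun R => ?_)
    show mo κ R * (c * f.1 R) = c * (mo κ R * f.1 R)
    ring

lemma Lam_ker (μ : Measure ↥SO3) [IsProbabilityMeasure μ] [μ.IsOpenPosMeasure] (N : ℕ) :
    LinearMap.ker (Lam μ N) = ⊥ := by
  rw [LinearMap.ker_eq_bot']
  intro f hf
  have h1 : ∀ g ∈ VN N, ∫ R, g R * f.1 R ∂μ = 0 := by
    intro g hg
    unfold VN at hg
    induction hg using Submodule.span_induction with
    | mem x hx =>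
      obtain ⟨κ, rfl⟩ := hx
      exact congrFun hf κ
    | zero => simp
    | add x y _ _ hx hy =>
      have e : ∫ R, (x + y) R * f.1 R ∂μ = ∫ R, x R * f.1 R ∂μ + ∫ R, y R * f.1 R ∂μ := by
        have i1 : Integrable (fun R => x R * f.1 R) μ := integrable_cont μ (x * f.1)
        have i2 : Integrable (fun R => y R * f.1 R) μ := integrable_cont μ (y * f.1)
        rw [← integral_add i1 i2]
        refine integral_congr_ae (Filter.Eventually.of_forall fun R => ?_)
        show (x R + y R) * f.1 R = x R * f.1 R + y R * f.1 R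
        ring
      rw [e, hx, hy, add_zero]
    | smul c x _ hx =>
      have e : ∫ R, (c • x) R * f.1 R ∂μ = c * ∫ R, x R * f.1 R ∂μ := by
        rw [← integral_const_mul]
        refine integral_congr_ae (Filter.Eventually.of_forall fun R => ?_)
        show c * x R * f.1 R = c * (x R * f.1 R)
        ring
      rw [e, hx, mul_zero]
  have h2 := h1 f.1 f.2
  have h3 : ∀ R : ↥SO3, f.1 R = 0 := by
    intro R
    by_contra hne
    have h4 : 0 < ∫ R, f.1 R * f.1 R ∂μ := by
      refine Continuous.integral_pos_of_hasCompactSupport_nonneg_nonzero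
        (f := fun R => f.1 R * f.1 R) (x := R) (f.1.continuous.mul f.1.continuous)
        (HasCompactSupport.of_compactSpace _) (fun R => mul_self_nonneg _) ?_
      exact mul_ne_zero hne hne
    rw [h2] at h4
    exact lt_irrefl _ h4
  ext R
  exact h3 R

/-- Packet LU-FD. -/
theorem gFD : G_FD := by
  intro μ hμ N
  have hprob : IsProbabilityMeasure μ := hμ.prob
  have hopen : μ.IsOpenPosMeasure := ⟨fun U hU hne => (hμ.opn U hU hne).ne'⟩
  have hex := LinearMap.exists_antilipschitzWith (𝕜 := ℝ) (E := VN N) (F := Mi N → ℝ) (Lam μ N)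
  obtain ⟨K, hK, hLip⟩ := hex (Lam_ker μ N)
  refine ⟨K, by exact_mod_cast hK, fun P B hP hB R hR => ?_⟩
  have hB0 : 0 ≤ B := (abs_nonneg _).trans (hB 0 (Nat.zero_le _) Fin.elim0 Fin.elim0)
  set f : VN N := ⟨evF P, evF_mem P hP⟩ with hf
  have h1 : ‖f‖ ≤ K * ‖Lam μ N f‖ := by
    have := hLip.le_mul_dist f 0
    rwa [dist_zero_right, map_zero, dist_zero_right] at this
  have h2 : ‖Lam μ N f‖ ≤ B := by
    rw [pi_norm_le_iff_of_nonneg hB0]
    intro κ
    rw [Real.norm_eq_abs]
    exact hB κ.1 (Nat.lt_succ_iff.mp κ.1.2) κ.2.1 κ.2.2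
  have h3 : |evM P R| ≤ ‖f‖ := by
    have := (evF P).norm_coe_le_norm ⟨R, hR⟩
    rw [Real.norm_eq_abs] at this
    exact this
  calc |evM P R| ≤ ‖f‖ := h3
    _ ≤ K * ‖Lam μ N f‖ := h1
    _ ≤ K * B := by gcongr

end Pool.Agent.Helper79.LU
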